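import Mathlib

open Set Filter

namespace Pool.Agent.Results.MP_f00063_lc.MiddleDiffer

/-- the sum: `A ∈ add U V` iff `{m | {n | m + n ∈ A} ∈ V} ∈ U` -/
def add (U V : Ultrafilter ℕ+) : Ultrafilter ℕ+ := U.bind fun m => V.map fun n => m + n

/-- the image of `U` under `n ↦ a n` -/
def smul (a : ℕ+) (U : Ultrafilter ℕ+) : Ultrafilter ℕ+ := U.map fun n => a * n

lemma mem_add (U V : Ultrafilter ℕ+) (A : Set ℕ+) :
    A ∈ add U V ↔ {m | {n | m + n ∈ A} ∈ V} ∈ U := Iff.rfl

lemma add_assoc' (U V W : Ultrafilter ℕ+) : add (add U V) W = add U (add V W) := by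
  ext A
  simp only [mem_add, mem_ofPred_eq, add_assoc]

lemma smul_add' (a : ℕ+) (U V : Ultrafilter ℕ+) :
    smul a (add U V) = add (smul a U) (smul a V) := by
  ext A
  simp only [smul, Ultrafilter.mem_map, mem_add, preimage, mem_ofPred_eq, mul_add]

lemma smul_smul' (a b : ℕ+) (U : Ultrafilter ℕ+) : smul a (smul b U) = smul (a * b) U := by
  ext A
  simp only [smul, Ultrafilter.mem_map, preimage, mem_ofPred_eq, mul_assoc]

attribute [local instance] Ultrafilter.add Ultrafilter.addSemigroup in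
lemma exists_idem : ∃ V : Ultrafilter ℕ+, add V V = V := by
  obtain ⟨V, hV⟩ := exists_idempotent_of_compact_t2_of_continuous_add_left
    (M := Ultrafilter ℕ+) Ultrafilter.continuous_add_left
  refine ⟨V, Eq.trans ?_ hV⟩
  ext A
  exact (Ultrafilter.eventually_add V V (· ∈ A)).symm

theorem result : ∃ (U : Ultrafilter ℕ+) (a b b' c : ℕ+), [a, b, b', c].Nodup ∧
    add (add (smul a U) (smul b U)) (smul c U) = add (add (smul a U) (smul b' U)) (smul c U) := by
  obtain ⟨V, hV⟩ := exists_idem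
  have h : ∀ (a : ℕ+) (W : Ultrafilter ℕ+), add (smul a V) (add (smul a V) W) = add (smul a V) W :=
    fun a W => by rw [← add_assoc', ← smul_add', hV]
  refine ⟨add (smul 1 V) (smul 2 V), 1, 2, 4, 8, by decide, ?_⟩
  simp only [smul_add', smul_smul', add_assoc']
  have e1 : (2 : ℕ+) * 2 = 4 := by decide
  have e2 : (4 : ℕ+) * 2 = 8 := by decide
  simp only [mul_one, one_mul, e1, e2, h]

end Pool.Agent.Results.MP_f00063_lc.MiddleDiffer
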